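import Pool.Agent.Q96.ID.Stm

/-!
# Project ID: the injective dimension of a retract (S_RET)
-/

set_option autoImplicit false
set_option linter.all false

open Cardinal Set Filter Topology

namespace Q162.ID.RET

open Q96.ID

section
variable {𝕜 : Type} [RCLike 𝕜] {B C : Type} [NormedAddCommGroup B] [NormedSpace 𝕜 B]
  [NormedAddCommGroup C] [NormedSpace 𝕜 C]

/-- the projection to the kernel of the retraction -/
noncomputable def proj (r : B →L[𝕜] C) (s : C →L[𝕜] B) (h : ∀ c, r (s c) = c) :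
    B →L[𝕜] LinearMap.ker r.toLinearMap :=
  (ContinuousLinearMap.id 𝕜 B - s.comp r).codRestrict (LinearMap.ker r.toLinearMap) (fun b => by
    rw [LinearMap.mem_ker]
    show r (b - s (r b)) = 0
    rw [map_sub, h, sub_self])

lemma proj_coe (r : B →L[𝕜] C) (s : C →L[𝕜] B) (h : ∀ c, r (s c) = c) (b : B) :
    ((proj r s h b : LinearMap.ker r.toLinearMap) : B) = b - s (r b) := rfl

end

theorem t_RET (h1 : S_ENOUGH) (h2 : S_SCH) (h3 : S_IDB) : S_RET := by
  intro 𝕜 _ n
  induction n with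
  | zero =>
    intro B C _ _ _ _ _ _ r s hrs hB
    exact (h3 𝕜 B C).1 r s hrs hB
  | succ n ih =>
    intro B C _ _ _ _ _ _ r s hrs hB
    obtain ⟨E, Q, iE1, iE2, iE3, iQ1, iQ2, iQ3, i, q, hE, hS, hQ⟩ := hB
    haveI : CompleteSpace (LinearMap.ker r.toLinearMap) :=
      (ContinuousLinearMap.isClosed_ker r).completeSpace_coe
    obtain ⟨EC, QC, a1, a2, a3, a4, a5, a6, iC, qC, hEC, hSC⟩ := h1 𝕜 C
    obtain ⟨ED, QD, b1, b2, b3, b4, b5, b6, iD, qD, hED, hSD⟩ := h1 𝕜 (LinearMap.ker r.toLinearMap)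
    let i' : B →L[𝕜] EC × ED := (iC.comp r).prod (iD.comp (proj r s hrs))
    let q' : EC × ED →L[𝕜] QC × QD := qC.prodMap qD
    have hi' : ∀ b, i' b = (iC (r b), iD (proj r s hrs b)) := fun b => rfl
    have hq' : ∀ x, q' x = (qC x.1, qD x.2) := fun x => rfl
    have hS' : SES i' q' := by
      refine ⟨?_, ?_, ?_⟩
      · intro b b' hbb
        rw [hi', hi', Prod.mk.injEq] at hbb
        have e1 := hSC.inj hbb.1
        have e2 := congrArg (Subtype.val) (hSD.inj hbb.2)
        rw [proj_coe, proj_coe, e1] at e2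
        exact sub_left_inj.mp e2
      · intro x
        rw [hq', Prod.mk_eq_zero]
        constructor
        · rintro ⟨hx, hy⟩
          obtain ⟨c, hc⟩ := (hSC.ker x.1).mp hx
          obtain ⟨d, hd⟩ := (hSD.ker x.2).mp hy
          have hd0 : r (d : B) = 0 := d.2
          have hr : r (s c + (d : B)) = c := by rw [map_add, hrs, hd0, add_zero]
          refine ⟨s c + (d : B), ?_⟩
          rw [hi', hr, hc]
          have hp : proj r s hrs (s c + (d : B)) = d := by
            apply Subtype.ext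
            rw [proj_coe, hr]
            abel
          rw [hp, hd]
        · rintro ⟨b, hb⟩
          rw [hi'] at hb
          rw [← hb]
          exact ⟨(hSC.ker _).mpr ⟨_, rfl⟩, (hSD.ker _).mpr ⟨_, rfl⟩⟩
      · rintro ⟨x, y⟩
        obtain ⟨x', hx'⟩ := hSC.surj x
        obtain ⟨y', hy'⟩ := hSD.surj y
        exact ⟨(x', y'), by rw [hq', hx', hy']⟩
    have hE' : Inj 𝕜 (EC × ED) := (h3 𝕜 EC ED).2.1 hEC hED
    obtain ⟨T⟩ := h2 𝕜 B E Q (EC × ED) (QC × QD) i q i' q' hE hE' hS hS'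
    have hid : IdLE 𝕜 n (Q × (EC × ED)) := (h3 𝕜 Q (EC × ED)).2.2.1 n hQ hE'
    have hQC : IdLE 𝕜 n QC := by
      refine ih (Q × (EC × ED)) QC
        (((ContinuousLinearMap.fst 𝕜 QC QD).comp (ContinuousLinearMap.fst 𝕜 (QC × QD) E)).comp
          (T : (Q × (EC × ED)) →L[𝕜] ((QC × QD) × E)))
        ((T.symm : ((QC × QD) × E) →L[𝕜] (Q × (EC × ED))).comp
          ((ContinuousLinearMap.inl 𝕜 (QC × QD) E).comp (ContinuousLinearMap.inl 𝕜 QC QD))) ?_ hid
      intro c
      simp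
    exact ⟨EC, QC, a1, a2, a3, a4, a5, a6, iC, qC, hEC, hSC, hQC⟩

end Q162.ID.RET
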