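import Pool.Agent.Q96.ID.Stm

/-!
# Project ID: Schanuel's lemma (S_SCH)
-/

set_option autoImplicit false
set_option linter.all false

open Cardinal Set Filter Topology

namespace Q162.ID.SCH

open Q96.ID

theorem t_SCH (h : S_SAME) : S_SCH := by
  intro 𝕜 _ X E Q E' Q' _ _ _ _ _ _ _ _ _ _ _ _ _ _ _ i q i' q' hE hE' hS hS'
  obtain ⟨c, hc⟩ := (h 𝕜 E X Q).2.2 i q hS
  obtain ⟨c', hc'⟩ := (h 𝕜 E' X Q').2.2 i' q' hS'
  obtain ⟨a, ha⟩ := hE' X E i c hc i'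
  obtain ⟨b, hb⟩ := hE X E' i' c' hc' i
  let P1 : E × E' →L[𝕜] Q' × E :=
    (q'.comp (ContinuousLinearMap.snd 𝕜 E E')).prod
      (ContinuousLinearMap.fst 𝕜 E E' + b.comp (ContinuousLinearMap.snd 𝕜 E E'))
  let P2 : E × E' →L[𝕜] Q × E' :=
    (q.comp (ContinuousLinearMap.fst 𝕜 E E')).prod
      (ContinuousLinearMap.snd 𝕜 E E' + a.comp (ContinuousLinearMap.fst 𝕜 E E'))
  have e1 : ∀ x : E × E', P1 x = (q' x.2, x.1 + b x.2) := fun x => rfl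
  have e2 : ∀ x : E × E', P2 x = (q x.1, x.2 + a x.1) := fun x => rfl
  have k1 : ∀ x : E × E', P1 x = 0 ↔ ∃ z : X, x = (-i z, i' z) := by
    rintro ⟨x, y⟩
    rw [e1, Prod.mk_eq_zero]
    constructor
    · rintro ⟨hy, hx⟩
      obtain ⟨z, hz⟩ := (hS'.ker _).mp hy
      refine ⟨z, ?_⟩
      rw [← hz, hb] at hx
      rw [Prod.mk.injEq]
      exact ⟨eq_neg_of_add_eq_zero_left hx, hz.symm⟩
    · rintro ⟨z, hz⟩
      rw [Prod.mk.injEq] at hz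
      obtain ⟨rfl, rfl⟩ := hz
      refine ⟨(hS'.ker _).mpr ⟨z, rfl⟩, ?_⟩
      show -i z + b (i' z) = 0
      rw [hb]
      exact neg_add_cancel _
  have k2 : ∀ x : E × E', P2 x = 0 ↔ ∃ z : X, x = (-i z, i' z) := by
    rintro ⟨x, y⟩
    rw [e2, Prod.mk_eq_zero]
    constructor
    · rintro ⟨hx, hy⟩
      obtain ⟨z, hz⟩ := (hS.ker _).mp hx
      refine ⟨-z, ?_⟩
      rw [← hz, ha] at hy
      rw [Prod.mk.injEq, map_neg, neg_neg, map_neg]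
      exact ⟨hz.symm, eq_neg_of_add_eq_zero_left hy⟩
    · rintro ⟨z, hz⟩
      rw [Prod.mk.injEq] at hz
      obtain ⟨rfl, rfl⟩ := hz
      refine ⟨(hS.ker _).mpr ⟨-z, by rw [map_neg]⟩, ?_⟩
      show i' z + a (-i z) = 0
      rw [map_neg, ha]
      exact add_neg_cancel _
  have s1 : Function.Surjective P1 := by
    rintro ⟨y, z⟩
    obtain ⟨y', hy'⟩ := hS'.surj y
    refine ⟨(z - b y', y'), ?_⟩
    rw [e1, Prod.mk.injEq]
    exact ⟨hy', sub_add_cancel _ _⟩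
  have s2 : Function.Surjective P2 := by
    rintro ⟨y, z⟩
    obtain ⟨y', hy'⟩ := hS.surj y
    refine ⟨(y', z - a y'), ?_⟩
    rw [e2, Prod.mk.injEq]
    exact ⟨hy', sub_add_cancel _ _⟩
  obtain ⟨T, _⟩ := (h 𝕜 (E × E') (Q × E') (Q' × E)).2.1 P2 P1 s2 s1
    (fun x => (k2 x).trans (k1 x).symm)
  exact ⟨T⟩

end Q162.ID.SCH
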